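import Pool.Agent.LibHC92.HY

/-
MP_b1abd3_lc: a NIP valued field is henselian if (and only if), for one prime q different from the residue
characteristic, every finite extension L has a small group of one-units modulo q-th powers. No hypothesis on the residue
field.
-/

set_option autoImplicit false

namespace Pool.Agent.Results.MP_b1abd3_lc.OnePrimeSmall

universe u

/-- the classes of Lˣ modulo q-th powers that contain an element congruent to 1 modulo b at all valuation rings of L
over O -/
def Cls {K : Type u} [Field K] (O : ValuationSubring K) (q : ℕ) (L : Type u) [Field L]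
    [Algebra K L] (b : L) : Set (Lˣ ⧸ (powMonoidHom q : Lˣ →* Lˣ).range) :=
  {c | ∃ u : Lˣ, (QuotientGroup.mk u : Lˣ ⧸ (powMonoidHom q : Lˣ →* Lˣ).range) = c ∧
    ∀ A : ValuationSubring L, A.comap (algebraMap K L) = O →
      A.valuation ((u : L) - 1) ≤ A.valuation b}

/-- L is q-small: for every b in the maximal ideals of all valuation rings of L over O there is k such that the set
Cls O q L (b ^ k) is finite -/
def Small {K : Type u} [Field K] (O : ValuationSubring K) (q : ℕ) (L : Type u) [Field L]
    [Algebra K L] : Prop :=
  ∀ b : L, (∀ A : ValuationSubring L, A.comap (algebraMap K L) = O → A.valuation b < 1) →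
    ∃ k : ℕ, (Cls O q L (b ^ k)).Finite

/-- the residue field of some valuation ring of L over O contains a primitive q-th root of unity -/
def Res {K : Type u} [Field K] (O : ValuationSubring K) (q : ℕ) (L : Type u) [Field L]
    [Algebra K L] : Prop :=
  ∃ A : ValuationSubring L, A.comap (algebraMap K L) = O ∧
    ∃ ζ : IsLocalRing.ResidueField A, IsPrimitiveRoot ζ q

open Pool.LibNP88 in
/-- Let (K, O) be a NIP valued field; q denotes primes. (1) If L is a finite extension of K that is q-small and
Res O q L holds, then L contains a primitive q-th root of unity and O has exactly one extension to L. (2) If every finite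
extension of K is contained in a finite extension L as in (1), for some q that may depend on L, then O has exactly one
extension to every algebraic extension of K. (3) For a prime q that is not the residue characteristic (q is a unit of
O): O has exactly one extension to every algebraic extension of K if and only if all finite extensions of K are
q-small. -/
theorem result {K : Type u} [Field K] (O : ValuationSubring K) (hN : NIP O) :
    (∀ q : ℕ, q.Prime → ∀ (L : Type u) [Field L] [Algebra K L] [FiniteDimensional K L],
      Res O q L → Small O q L → (∃ z : L, IsPrimitiveRoot z q) ∧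
      ∃! A : ValuationSubring L, A.comap (algebraMap K L) = O) ∧
    ((∀ (L : Type u) [Field L] [Algebra K L] [FiniteDimensional K L],
      ∃ (L' : Type u) (_ : Field L') (_ : Algebra K L') (_ : Algebra L L')
        (_ : IsScalarTower K L L') (_ : FiniteDimensional K L') (q : ℕ), q.Prime ∧
        Res O q L' ∧ Small O q L') →
      ∀ (E : Type u) [Field E] [Algebra K E] [Algebra.IsAlgebraic K E],
      ∃! A : ValuationSubring E, A.comap (algebraMap K E) = O) ∧
    (∀ q : ℕ, q.Prime → O.valuation (q : K) = 1 →
      ((∀ (E : Type u) [Field E] [Algebra K E] [Algebra.IsAlgebraic K E],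
        ∃! A : ValuationSubring E, A.comap (algebraMap K E) = O) ↔
      ∀ (L : Type u) [Field L] [Algebra K L] [FiniteDimensional K L], Small O q L)) := by
  have h1 : ∀ q : ℕ, q.Prime → ∀ (L : Type u) [Field L] [Algebra K L]
      [FiniteDimensional K L], Res O q L → Small O q L →
      (∃ z : L, IsPrimitiveRoot z q) ∧
      ∃! A : ValuationSubring L, A.comap (algebraMap K L) = O :=
    fun q hq L _ _ _ hz hf =>
      Pool.LibHC92.root_unique2 O hN hq (Pool.LibHC92.RR.val hq (L := L) hz) L hz hf
  refine ⟨h1, fun h E _ _ _ => Pool.LibHB92.of_cofinal O (fun L _ _ _ => ?_) E,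
    fun q hq hqv => ⟨fun h L _ _ _ => Pool.LibHC92.small_of_hens O hq hqv h L,
      fun hf E _ _ _ => Pool.LibHC92.main2 O hN hq hqv (fun L _ _ _ => hf L) E⟩⟩
  obtain ⟨L', i1, i2, i3, i4, i5, q, hq, hz, hf⟩ := h L
  exact ⟨L', i1, i2, i3, i4, fun A B hA hB => (h1 q hq L' hz hf).2.unique hA hB⟩

end Pool.Agent.Results.MP_b1abd3_lc.OnePrimeSmall
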