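import Pool.Agent.LibHC92.HY

/-
MP_b1abd3_lc: strongly NIP (strongly dependent) valued fields are henselian if the residue field is infinite of positive
characteristic, or contains (after a finite extension) q-th roots of unity for infinitely many primes q.
-/

set_option autoImplicit false

namespace Pool.Agent.Results.MP_b1abd3_lc.StronglyNIPRoots

universe u

/-- the classes of Lˣ modulo q-th powers that contain an element congruent to 1 modulo b at all valuation rings of L
over O -/
def Cls {K : Type u} [Field K] (O : ValuationSubring K) (q : ℕ) (L : Type u) [Field L]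
    [Algebra K L] (b : L) : Set (Lˣ ⧸ (powMonoidHom q : Lˣ →* Lˣ).range) :=
  {c | ∃ u : Lˣ, (QuotientGroup.mk u : Lˣ ⧸ (powMonoidHom q : Lˣ →* Lˣ).range) = c ∧
    ∀ A : ValuationSubring L, A.comap (algebraMap K L) = O →
      A.valuation ((u : L) - 1) ≤ A.valuation b}

/-- L is q-small: for every b in the maximal ideals of all valuation rings of L over O there is k such that the set
Cls O q L (b ^ k) is finite -/
def Small {K : Type u} [Field K] (O : ValuationSubring K) (q : ℕ) (L : Type u) [Field L]
    [Algebra K L] : Prop :=
  ∀ b : L, (∀ A : ValuationSubring L, A.comap (algebraMap K L) = O → A.valuation b < 1) →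
    ∃ k : ℕ, (Cls O q L (b ^ k)).Finite

/-- the residue field of some valuation ring of L over O contains a primitive q-th root of unity -/
def Res {K : Type u} [Field K] (O : ValuationSubring K) (q : ℕ) (L : Type u) [Field L]
    [Algebra K L] : Prop :=
  ∃ A : ValuationSubring L, A.comap (algebraMap K L) = O ∧
    ∃ ζ : IsLocalRing.ResidueField A, IsPrimitiveRoot ζ q

open Pool.LibNP88 Pool.LibHB92 in
/-- Let (K, O) be a valued field such that (i) the residue field is infinite of characteristic p > 0, or (ii) K has a
finite extension L0 such that Res O q L0 holds for infinitely many primes q. Suppose that (a) (K, O) is strongly NIP, or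
(b) (K, O) is NIP and the field K is strongly NIP (as a field, that is with the trivial valuation ring ⊤ = K), or
(c) (K, O) is NIP and for every finite extension L of K all but finitely many primes q are such that L is q-small. Then
O has exactly one extension to every algebraic extension of K. -/
theorem result {K : Type u} [Field K] (O : ValuationSubring K)
    (hR : (Infinite (IsLocalRing.ResidueField O) ∧
        ∃ p : ℕ, p.Prime ∧ CharP (IsLocalRing.ResidueField O) p) ∨
      ∃ (L0 : Type u) (_ : Field L0) (_ : Algebra K L0) (_ : FiniteDimensional K L0),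
        {q : ℕ | q.Prime ∧ Res O q L0}.Infinite)
    (h : StrNIP O ∨ (NIP O ∧ StrNIP (⊤ : ValuationSubring K)) ∨
      (NIP O ∧ ∀ (L : Type u) [Field L] [Algebra K L] [FiniteDimensional K L],
        {q : ℕ | q.Prime ∧ ¬ Small O q L}.Finite))
    (E : Type u) [Field E] [Algebra K E] [Algebra.IsAlgebraic K E] :
    ∃! A : ValuationSubring E, A.comap (algebraMap K E) = O := by
  have hN : NIP O := by
    rcases h with h | ⟨h, -⟩ | ⟨h, -⟩
    · exact nip_of_str O h
    · exact h
    · exact h
  obtain ⟨L0, _, _, _, hL0⟩ : ∃ (L0 : Type u) (_ : Field L0) (_ : Algebra K L0)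
      (_ : FiniteDimensional K L0), {q : ℕ | q.Prime ∧ Res O q L0}.Infinite := by
    rcases hR with ⟨hi, p, hp, hc⟩ | hR
    · exact ⟨K, inferInstance, inferInstance, inferInstance,
        Pool.LibHC92.inf_RR O hN hp⟩
    · exact hR
  rcases h with h | ⟨h1, h2⟩ | ⟨h1, h2⟩
  · exact Pool.LibHC92.strong_hens2 O hN O h L0 hL0 E
  · exact Pool.LibHC92.strong_hens2 O h1 ⊤ h2 L0 hL0 E
  · exact Pool.LibHC92.almost_all2 O h1 L0 hL0 (fun L _ _ _ => h2 L) E

end Pool.Agent.Results.MP_b1abd3_lc.StronglyNIPRoots
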