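import Pool.Agent.LibHC92.HU2

/-
MP_b1abd3_lc: zero-infinity law for NIP valued fields. Every ball of one-units consists of q-th powers or meets
infinitely many classes modulo q-th powers; the q-henselian coarsening.
-/

set_option autoImplicit false

namespace Pool.Agent.Results.MP_b1abd3_lc.ZeroInfinity

universe u

/-- the classes of Lˣ modulo q-th powers that contain an element congruent to 1 modulo b at all valuation rings of L
over O -/
def Cls {K : Type u} [Field K] (O : ValuationSubring K) (q : ℕ) (L : Type u) [Field L]
    [Algebra K L] (b : L) : Set (Lˣ ⧸ (powMonoidHom q : Lˣ →* Lˣ).range) :=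
  {c | ∃ u : Lˣ, (QuotientGroup.mk u : Lˣ ⧸ (powMonoidHom q : Lˣ →* Lˣ).range) = c ∧
    ∀ A : ValuationSubring L, A.comap (algebraMap K L) = O →
      A.valuation ((u : L) - 1) ≤ A.valuation b}

open Pool.LibNP88 in
/-- Let (K, O) be a NIP valued field and q a prime that is not the residue characteristic (q is a unit of O). (1) Let L
be a finite extension of K that contains a primitive q-th root of unity, and b an element of the maximal ideals of all
valuation rings of L over O. Either every u in L that is congruent to 1 modulo b at all these valuation rings is a q-th
power in L, or the elements u of this form lie in infinitely many classes modulo q-th powers. (2) If K contains a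
primitive q-th root of unity there is a valuation ring O' containing O such that every one-unit of O' is the q-th power
of a one-unit of O', O' has exactly one extension to every Galois extension of K of q-power degree, and for every d in
the maximal ideal of O that is not in the maximal ideal of O' the elements congruent to 1 modulo d lie in infinitely
many classes modulo q-th powers. -/
theorem result {K : Type u} [Field K] (O : ValuationSubring K) (hN : NIP O) (q : ℕ)
    (hq : q.Prime) (hqv : O.valuation (q : K) = 1) :
    (∀ (L : Type u) [Field L] [Algebra K L] [FiniteDimensional K L],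
      (∃ z : L, IsPrimitiveRoot z q) → ∀ b : L,
      (∀ A : ValuationSubring L, A.comap (algebraMap K L) = O → A.valuation b < 1) →
      (∀ u : L, (∀ A : ValuationSubring L, A.comap (algebraMap K L) = O →
        A.valuation (u - 1) ≤ A.valuation b) → ∃ w : L, w ^ q = u) ∨
      (Cls O q L b).Infinite) ∧
    ((∃ z : K, IsPrimitiveRoot z q) → ∃ O' : ValuationSubring K, O ≤ O' ∧
      (∀ u : K, O'.valuation (u - 1) < 1 → ∃ w : K, O'.valuation (w - 1) < 1 ∧ w ^ q = u) ∧
      (∀ (n : ℕ) (L : Type u) [Field L] [Algebra K L] [FiniteDimensional K L] [IsGalois K L],
        Module.finrank K L = q ^ n →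
          ∃! A : ValuationSubring L, A.comap (algebraMap K L) = O') ∧
      ∀ d : K, O.valuation d < 1 → O'.valuation d = 1 → (Cls O q K d).Infinite) := by
  refine ⟨fun L _ _ _ ⟨z, hz⟩ b hb => ?_, fun ⟨z, hz⟩ => Pool.LibHC92.coarse_hens O hN hq hqv z hz⟩
  by_cases h : (Cls O q L b).Infinite
  · exact Or.inr h
  · exact Or.inl fun u hu =>
      Pool.LibHC92.zero_inf_L O hN hq hqv L z hz b hb (Set.not_infinite.1 h) u hu

end Pool.Agent.Results.MP_b1abd3_lc.ZeroInfinity
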